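import Pool.Agent.N931.PN.Stm5
import Pool.Agent.N262.PN.WW
import Pool.Agent.N144.EW.DetA

/-!
# Project PN (helper931), part EW (helper581): long excursions of faces at an end of the path

Adapted from `Pool.Agent.N262.PN.WW` by helper262.
-/

set_option autoImplicit false

namespace Pool.Agent.N581.PN.EW

open H974 H12S H389NS H984N H984P H342P Finset
open Pool.Agent.N116.EW
open Pool.Agent.N931.PN
open Pool.Agent.N262.PN.WW (sh us sh_us dsrc_dl dtgt_dl reach_sh dreach_us sd_le le_sd mem_AN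
  cut_dual cut_primal rect_conn DI dclu_step PI half)

/-- outside of the rectangle, not on the free side `Q`, or wired -/
def Yb (D : Dm) (Q : Set Vtx) (g : Edg) : Prop :=
  (g ∉ D.edges ∧ ¬ (dsrc g ∈ Q ∧ dtgt g ∈ Q)) ∨ g ∈ D.wir

theorem core {D : Dm} (hD : D.Ok) {G B : Finset Edg} (hG : G ⊆ D.edges) {z : Vtx} {d R ρ : ℕ}
    (hdR : d + 4 ≤ R) (hRρ : R + d + 4 ≤ ρ) (hB : B ⊆ blk z d) (Q X : Set Vtx)
    (hQ1 : ∀ f ∈ Q, ∀ g ∈ D.edges, ∀ f', DI g f f' → f ∈ D.outer)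
    (hQ2 : ∀ g0 ∈ D.outer, sd g0 z ≤ (R : ℤ) + 1 → ∃ u, (R : ℤ) + 2 ≤ sd u z ∧
      DReach {g | g ∉ D.edges ∧ dsrc g ∈ Q ∧ dtgt g ∈ Q} g0 u)
    (hX1 : ∀ g, Yb D Q g → ∀ v v', PI g v v' → sd v z ≤ (R : ℤ) → v ∈ X)
    (hX2 : ∀ E : Set Edg, (∀ g : Edg, dl g ∈ RE (z.1 - R - 1) (z.1 + R) (z.2 - R - 1) (z.2 + R) →
      Yb D Q g → g ∈ E) → ∀ x ∈ X, ∀ x' ∈ X, sd x z ≤ (R : ℤ) → sd x' z ≤ (R : ℤ) → Reach E x x')
    (hbad : BadW D ρ (G \ B) G) : OAr z d R G ∧ DAr D z d R G := by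
  obtain ⟨e, heG, heF, x, y, z', hx, hyz, hxc, hyK, hzK, w, hw, hδ⟩ := hbad
  have heE : e ∈ D.edges := hG heG
  have hew : e ∉ D.wir := fun h => heF (Or.inr h)
  have heB : e ∈ B := by
    by_contra h
    exact heF (Or.inl (Finset.mem_coe.mpr (Finset.mem_sdiff.mpr ⟨heG, h⟩)))
  have heb : e ∈ blk z d := hB heB
  have hDI : DI e y z' := by
    rcases hyz with ⟨h1, h2⟩ | ⟨h1, h2⟩
    · exact Or.inl ⟨h1.symm, h2.symm⟩
    · exact Or.inr ⟨h2.symm, h1.symm⟩
  -- the ends and the faces of `e` are close to `z`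
  have hpos : (sd (src e) z ≤ (d : ℤ) ∧ sd (tgt e) z ≤ (d : ℤ)) ∧
      sd (dsrc e) z ≤ (d : ℤ) + 1 ∧ sd (dtgt e) z ≤ (d : ℤ) + 1 := by
    rw [sd_le, sd_le, sd_le, sd_le]
    unfold blk at heb
    obtain ⟨a, b, _ | _⟩ := e
    · rw [mem_RE_false] at heb
      simp only [src_mk, tgt_false, dsrc_false, dtgt_mk]
      omega
    · rw [mem_RE_true] at heb
      simp only [src_mk, tgt_true, dsrc_true, dtgt_mk]
      omega
  obtain ⟨⟨hps, hpt⟩, hpds, hpdt⟩ := hpos
  have hy : sd y z ≤ (d : ℤ) + 1 := by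
    rcases hDI with ⟨h1, h2⟩ | ⟨h1, h2⟩
    · rw [← h1]; exact hpds
    · rw [← h2]; exact hpdt
  have hz' : sd z' z ≤ (d : ℤ) + 1 := by
    rcases hDI with ⟨h1, h2⟩ | ⟨h1, h2⟩
    · rw [← h2]; exact hpdt
    · rw [← h1]; exact hpds
  have hwz : (R : ℤ) + 3 ≤ sd w z := by
    have hw1 : (R : ℤ) + d + 4 ≤ sd z' w := by
      have : ((R + d + 4 : ℕ) : ℤ) ≤ (ρ : ℤ) := by exact_mod_cast hRρ
      push_cast at this
      omega
    rw [le_sd] at hw1
    rw [sd_le] at hz'
    rw [le_sd]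
    omega
  obtain ⟨g0, hg0, hr0⟩ := hyK
  have hyK : y ∈ D.dclu G := ⟨g0, hg0, hr0⟩
  have hoK : ∀ f ∈ D.outer, f ∈ D.dclu G := fun f hf => ⟨f, hf, DReach.refl _ _⟩
  constructor
  · -- the open arm
    set C2 : Set Edg := {g | (g ∈ D.edges ∧ (g ∉ D.cfg G ∨
      (g ∉ D.cfg (G \ B) ∧ dsrc g ∉ D.dclu G ∧ dtgt g ∉ D.dclu G))) ∨
      (g ∉ D.edges ∧ dsrc g ∈ Q ∧ dtgt g ∈ Q)} with hC2
    set a := z.1 - R - 1 with ha
    set b := z.1 + (R : ℤ) with hb
    set c := z.2 - R - 1 with hc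
    set q := z.2 + (R : ℤ) with hq
    set F : Set Edg := (dl '' C2) ∩ ↑(RE a b c q) with hF
    have hFsub : F ⊆ ↑(RE a b c q) := Set.inter_subset_right
    have heC : e ∉ C2 := by
      rintro (⟨_, h1 | ⟨_, h1, h2⟩⟩ | ⟨h0, _⟩)
      · exact h1 (Or.inl (Finset.mem_coe.mpr heG))
      · rcases hDI with ⟨h3, h4⟩ | ⟨h3, h4⟩
        · rw [h3] at h1; exact h1 hyK
        · rw [h4] at h2; exact h2 hyK
      · exact h0 heE
    have heF' : dl e ∉ F := by
      rintro ⟨⟨e', he', h⟩, _⟩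
      rw [dl.injective h] at he'
      exact heC he'
    have heR : dl e ∈ RE a b c q := by
      unfold blk at heb
      obtain ⟨a1, b1, _ | _⟩ := e
      · rw [mem_RE_false] at heb
        rw [dl_f, mem_RE_true]
        omega
      · rw [mem_RE_true] at heb
        rw [dl_t, mem_RE_false]
        omega
    have exitF : ∀ v u : Vtx, sd v z ≤ (d : ℤ) + 1 → DReach C2 v u → (R : ℤ) + 2 ≤ sd u z →
        ∃ w ∈ bdR a b c q, Reach F v w := by
      intro v u hv hr hu
      rw [sd_le] at hv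
      rw [le_sd] at hu
      obtain ⟨w, h1, h2, h3⟩ := first_exit (G := dl '' C2) (a := a) (b := b) (c := c) (d := q)
        (u := v) (v := u) (by unfold inR; omega) (reach_dl.mpr hr) (by omega)
      exact ⟨w, ⟨h1, h2⟩, h3⟩
    have hyb : ∃ w ∈ bdR a b c q, Reach F y w := by
      have hyg : DReach C2 y g0 := by
        refine hr0.symm.mono ?_
        rintro g ⟨h1, h2⟩
        exact Or.inl ⟨h1, Or.inl h2⟩
      by_cases hfar : (R : ℤ) + 2 ≤ sd g0 z
      · exact exitF y g0 hy hyg hfar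
      · obtain ⟨u, hu1, hu2⟩ := hQ2 g0 hg0 (by omega)
        refine exitF y u hy (hyg.trans (hu2.mono ?_)) hu1
        rintro g hg
        exact Or.inr hg
    have hzb : ∃ w ∈ bdR a b c q, Reach F z' w := by
      refine exitF z' w hz' (hδ.mono ?_) (by omega)
      rintro g ⟨h1, h2, h3, h4⟩
      exact Or.inl ⟨h1, Or.inr ⟨h2, h3, h4⟩⟩
    have hstay : ∀ v, DReach C2 y v → v ∈ D.dclu G ∨ v ∈ Q := by
      intro v hv
      induction hv with
      | refl => exact Or.inl hyK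
      | tail _hr hs ih =>
        rename_i v1 v2
        obtain ⟨g, hgC, hi⟩ := hs
        have hi' : DI g v1 v2 := hi
        rcases hgC with ⟨h1, h2⟩ | ⟨_, h2, h3⟩
        · have hK : v1 ∈ D.dclu G := by
            rcases ih with ih | ih
            · exact ih
            · exact hoK _ (hQ1 v1 ih g h1 v2 hi')
          rcases h2 with h2 | ⟨_, h2, h3⟩
          · exact Or.inl (dclu_step h1 h2 hi' hK)
          · exfalso
            rcases hi with ⟨h4, h5⟩ | ⟨h4, h5⟩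
            · rw [h4] at h2; exact h2 hK
            · rw [h5] at h3; exact h3 hK
        · right
          rcases hi with ⟨h4, h5⟩ | ⟨h4, h5⟩
          · rw [← h5]; exact h3
          · rw [← h4]; exact h2
    have hnc : ¬ Reach F y z' := by
      intro h
      rcases hstay z' (reach_dl.mp (h.mono Set.inter_subset_left)) with h1 | h1
      · exact hzK h1
      · exact hzK (hoK _ (hQ1 z' h1 e heE y (Or.symm hDI)))
    have hu : ∃ w ∈ bdR a b c q, Reach F (src (dl e)) w := by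
      rw [src_dl]
      rcases hDI with ⟨h1, h2⟩ | ⟨h1, h2⟩
      · rw [h1]; exact hyb
      · rw [h1]; exact hzb
    have hv : ∃ w ∈ bdR a b c q, Reach F (tgt (dl e)) w := by
      rw [tgt_dl]
      rcases hDI with ⟨h1, h2⟩ | ⟨h1, h2⟩
      · rw [h2]; exact hzb
      · rw [h2]; exact hyb
    have huv : ¬ Reach F (src (dl e)) (tgt (dl e)) := by
      rw [src_dl, tgt_dl]
      rcases hDI with ⟨h1, h2⟩ | ⟨h1, h2⟩
      · rw [h1, h2]; exact hnc
      · rw [h1, h2]; exact fun h => hnc h.symm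
    have hsep := dual_sep hFsub heR heF' hu hv
    obtain ⟨p1, hp1, hr1⟩ := dual_arm hFsub heR heF' hu hv huv (Or.inl ⟨rfl, rfl⟩)
    obtain ⟨p2, hp2, hr2⟩ := dual_arm hFsub heR heF' hu hv huv (Or.inr ⟨rfl, rfl⟩)
    set E : Set Edg := {g | dl g ∈ (↑(RE a b c q) \ F) \ {dl e}} with hE
    have hr1' : Reach E (src e) (sh p1) := by
      have := reach_sh hr1
      rwa [dsrc_dl, sh_us] at this
    have hr2' : Reach E (tgt e) (sh p2) := by
      have := reach_sh hr2
      rwa [dtgt_dl, sh_us] at this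
    have hsep' : ¬ Reach E (src e) (tgt e) := by
      intro h
      apply hsep
      rw [dsrc_dl, dtgt_dl]
      exact dreach_us h
    have hE1 : ∀ g ∈ E, g ∉ (↑G : Set Edg) → Yb D Q g := by
      rintro g ⟨⟨h1, h2⟩, h3⟩ hgG
      by_contra hcon
      unfold Yb at hcon
      push Not at hcon
      apply h2
      refine ⟨⟨g, ?_, rfl⟩, h1⟩
      by_cases hgE : g ∈ D.edges
      · refine Or.inl ⟨hgE, Or.inl ?_⟩
        rintro (h | h)
        · exact hgG h
        · exact hcon.2 h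
      · exact Or.inr ⟨hgE, hcon.1 hgE⟩
    have hE2 : ∀ g : Edg, dl g ∈ RE a b c q → Yb D Q g → g ∈ E := by
      intro g h1 h2
      refine ⟨⟨h1, ?_⟩, ?_⟩
      · rintro ⟨⟨g', hg', h⟩, _⟩
        rw [dl.injective h] at hg'
        rcases hg' with ⟨h3, h4⟩ | ⟨h3, h4⟩
        · rcases h2 with h2 | h2
          · exact h2.1 h3
          · rcases h4 with h4 | ⟨h4, _⟩
            · exact h4 (Or.inr h2)
            · exact h4 (Or.inr h2)
        · rcases h2 with h2 | h2
          · exact h2.2 h4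
          · exact h3 (Pool.Agent.N144.EW.wir_edges hD h2)
      · intro h
        have h' : g = e := dl.injective h
        rw [h'] at h2
        rcases h2 with h2 | h2
        · exact h2.1 heE
        · exact hew h2
    have hX2' := hX2 E hE2
    have hout' : ∀ p : Vtx, p ∈ outF a b c q → (R : ℤ) + 1 ≤ sd (sh p) z := by
      intro p hp
      rw [le_sd]
      unfold outF at hp
      rw [Set.mem_ofPred_eq] at hp
      unfold sh
      simp only
      omega
    have hXg : ∀ g ∈ E, g ∉ (↑G : Set Edg) → ∀ v v', PI g v v' → sd v z ≤ (R : ℤ) → v ∈ X :=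
      fun g hg hgG v v' hi hv => hX1 g (hE1 g hg hgG) v v' hi hv
    have fin : ∀ v0 u, sd v0 z ≤ (d : ℤ) → Reach (E ∩ ↑G) v0 u → (R : ℤ) + 1 ≤ sd u z →
        OAr z d R G := by
      intro v0 u h1 h2 h3
      obtain ⟨f, g, k1, k2, k3⟩ := cut_primal hdR (by omega : (R : ℤ) ≤ sd u z) h2 h1
      refine ⟨f, g, k1, k2, k3.mono ?_⟩
      rintro g1 ⟨⟨_, h5⟩, h6⟩
      exact ⟨h5, h6⟩
    rcases half hXg (by omega : sd (src e) z ≤ (R : ℤ)) hr1' (hout' p1 hp1) with
      ⟨u, h1, h2⟩ | ⟨x1, h1, h2, h3⟩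
    · exact fin _ u hps h1 h2
    rcases half hXg (by omega : sd (tgt e) z ≤ (R : ℤ)) hr2' (hout' p2 hp2) with
      ⟨u, h1', h2'⟩ | ⟨x2, h1', h2', h3'⟩
    · exact fin _ u hpt h1' h2'
    exact absurd (h3.trans ((hX2' x1 h1 x2 h1' h2 h2').trans h3'.symm)) hsep'
  · -- the dual arm
    obtain ⟨f', g', hf', hg', hzf, hfg'⟩ := cut_dual hdR (by omega : (R : ℤ) ≤ sd w z) hδ hz'
    refine ⟨f', g', hf', hg', hfg'.mono ?_⟩
    rintro g1 ⟨⟨h1, h2, _, _⟩, h3⟩
    refine ⟨h1, fun h => h2 (Or.inl ?_), h3⟩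
    have h4 : g1 ∉ B := fun h5 => (mem_AN.mp h3).2 (hB h5)
    exact Finset.mem_coe.mpr (Finset.mem_sdiff.mpr ⟨h, h4⟩)

/-! ### The two ends -/

/-- upwards -/
theorem upw {Q : Set Vtx} {D : Dm} {x y : ℤ} (hQ : ∀ k : ℕ, ((x, y + k) : Vtx) ∈ Q)
    (hy : D.h ≤ y) (n : ℕ) :
    DReach {g | g ∉ D.edges ∧ dsrc g ∈ Q ∧ dtgt g ∈ Q} (x, y) (x, y + n) := by
  induction n with
  | zero => simpa using DReach.refl _ _
  | succ n ih =>
    have e1 : dsrc ((x, y + n + 1, true) : Edg) = (x, y + n) := by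
      rw [dsrc_true, Prod.mk.injEq]
      exact ⟨rfl, by ring⟩
    have e2 : dtgt ((x, y + n + 1, true) : Edg) = (x, y + ((n + 1 : ℕ) : ℤ)) := by
      rw [dtgt_mk, Prod.mk.injEq]
      refine ⟨rfl, ?_⟩
      push_cast
      ring
    refine ih.trans (DAdj.reach ⟨(x, y + n + 1, true), ⟨?_, ?_, ?_⟩, Or.inl ⟨e1, e2⟩⟩)
    · simp only [Dm.edges, mem_RE_true]
      omega
    · rw [e1]
      exact hQ n
    · rw [e2]
      exact hQ (n + 1)

/-- downwards -/
theorem dnw {Q : Set Vtx} {D : Dm} {x y : ℤ} (hQ : ∀ k : ℕ, ((x, y - k) : Vtx) ∈ Q)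
    (hy : y < 0) (n : ℕ) :
    DReach {g | g ∉ D.edges ∧ dsrc g ∈ Q ∧ dtgt g ∈ Q} (x, y) (x, y - n) := by
  induction n with
  | zero => simpa using DReach.refl _ _
  | succ n ih =>
    have e1 : dsrc ((x, y - n, true) : Edg) = (x, y - ((n + 1 : ℕ) : ℤ)) := by
      rw [dsrc_true, Prod.mk.injEq]
      refine ⟨rfl, ?_⟩
      push_cast
      ring
    have e2 : dtgt ((x, y - n, true) : Edg) = (x, y - n) := by
      rw [dtgt_mk]
    refine ih.trans (DAdj.reach ⟨(x, y - n, true), ⟨?_, ?_, ?_⟩, Or.inr ⟨e1, e2⟩⟩)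
    · simp only [Dm.edges, mem_RE_true]
      omega
    · rw [e1]
      exact hQ (n + 1)
    · rw [e2]
      exact hQ n

theorem top {D : Dm} (hD : D.Ok) {G B : Finset Edg} (hG : G ⊆ D.edges) {d R ρ : ℕ}
    (hdR : d + 4 ≤ R) (hRρ : R + d + 4 ≤ ρ) (hB : B ⊆ blk (D.t, D.h) d)
    (hl : 2 * (R : ℤ) + 8 ≤ D.t - D.l) (hr : 2 * (R : ℤ) + 8 ≤ D.r - D.t)
    (hh : 2 * (R : ℤ) + 8 ≤ D.h) (hbad : BadW D ρ (G \ B) G) :
    OAr (D.t, D.h) d R G ∧ DAr D (D.t, D.h) d R G := by
  refine core hD hG hdR hRρ hB {f | D.t ≤ f.1 ∧ D.h ≤ f.2} {v | v.1 ≤ D.t ∧ D.h ≤ v.2}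
    ?_ ?_ ?_ ?_ hbad
  · rintro f hf g hg f' hi
    rw [Set.mem_ofPred_eq] at hf
    unfold Dm.edges at hg
    unfold DI at hi
    obtain ⟨x, y, _ | _⟩ := g
    · simp only [dsrc_false, dtgt_mk] at hi
      rw [mem_RE_false] at hg
      rcases hi with ⟨rfl, rfl⟩ | ⟨rfl, rfl⟩ <;> simp only at hf <;> omega
    · simp only [dsrc_true, dtgt_mk] at hi
      rw [mem_RE_true] at hg
      rcases hi with ⟨rfl, rfl⟩ | ⟨rfl, rfl⟩ <;> simp only at hf
      · omega
      · exact Or.inr (Or.inr ⟨by show y = D.h; omega, by show D.t ≤ x; omega,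
          by show x ≤ D.r; omega⟩)
  · rintro ⟨x, y⟩ hg0 hs
    rw [sd_le] at hs
    unfold Dm.outer at hg0
    rw [Set.mem_ofPred_eq] at hg0
    simp only at hs hg0
    have h1 : y = D.h ∧ D.t ≤ x ∧ x ≤ D.r := by omega
    obtain ⟨rfl, h2, h3⟩ := h1
    refine ⟨(x, D.h + ((R + 2 : ℕ) : ℤ)), ?_, upw (fun k => ?_) le_rfl (R + 2)⟩
    · rw [le_sd]
      simp only
      push_cast
      omega
    · rw [Set.mem_ofPred_eq]
      simp only
      omega
  · intro g hg v v' hi hv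
    rw [sd_le] at hv
    rw [Set.mem_ofPred_eq]
    unfold Yb Dm.edges Dm.wir at hg
    simp only [Set.mem_ofPred_eq] at hg
    unfold PI at hi
    obtain ⟨x, y, _ | _⟩ := g
    · simp only [src_mk, tgt_false] at hi
      simp only [mem_RE_false, Bool.false_eq_true, false_and, true_and, false_or, or_false,
        dsrc_false, dtgt_mk] at hg
      rcases hi with ⟨rfl, rfl⟩ | ⟨rfl, rfl⟩ <;> simp only at hv ⊢ <;> omega
    · simp only [src_mk, tgt_true] at hi
      simp only [mem_RE_true, Bool.true_eq_false, false_and, true_and, false_or,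
        dsrc_true, dtgt_mk] at hg
      rcases hi with ⟨rfl, rfl⟩ | ⟨rfl, rfl⟩ <;> simp only at hv ⊢ <;> omega
  · intro E hE x hx x' hx' hxz hxz'
    rw [sd_le] at hxz hxz'
    rw [Set.mem_ofPred_eq] at hx hx'
    simp only at hE hxz hxz'
    apply rect_conn (p1 := D.t - R) (p2 := D.t) (q1 := D.h) (q2 := D.h + R)
    · intro g hg
      apply hE
      · obtain ⟨a, b, _ | _⟩ := g
        · rw [mem_RE_false] at hg
          rw [dl_f, mem_RE_true]
          omega
        · rw [mem_RE_true] at hg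
          rw [dl_t, mem_RE_false]
          omega
      · unfold Yb Dm.edges Dm.wir
        simp only [Set.mem_ofPred_eq]
        obtain ⟨a, b, _ | _⟩ := g
        · rw [mem_RE_false] at hg
          left
          simp only [mem_RE_false, dsrc_false, dtgt_mk]
          omega
        · rw [mem_RE_true] at hg
          simp only [mem_RE_true, Bool.true_eq_false, false_and, true_and, false_or,
            dsrc_true, dtgt_mk]
          omega
    · unfold inR
      omega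
    · unfold inR
      omega

theorem bot {D : Dm} (hD : D.Ok) {G B : Finset Edg} (hG : G ⊆ D.edges) {d R ρ : ℕ}
    (hdR : d + 4 ≤ R) (hRρ : R + d + 4 ≤ ρ) (hB : B ⊆ blk (0, 0) d)
    (hl : 2 * (R : ℤ) + 8 ≤ -D.l) (hr : 2 * (R : ℤ) + 8 ≤ D.r)
    (hh : 2 * (R : ℤ) + 8 ≤ D.h) (hbad : BadW D ρ (G \ B) G) :
    OAr (0, 0) d R G ∧ DAr D (0, 0) d R G := by
  refine core hD hG hdR hRρ hB {f | 0 ≤ f.1 ∧ f.2 ≤ -1} {v | v.1 ≤ 0 ∧ v.2 ≤ 0}
    ?_ ?_ ?_ ?_ hbad
  · rintro f hf g hg f' hi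
    rw [Set.mem_ofPred_eq] at hf
    unfold Dm.edges at hg
    unfold DI at hi
    obtain ⟨x, y, _ | _⟩ := g
    · simp only [dsrc_false, dtgt_mk] at hi
      rw [mem_RE_false] at hg
      rcases hi with ⟨rfl, rfl⟩ | ⟨rfl, rfl⟩ <;> simp only at hf <;> omega
    · simp only [dsrc_true, dtgt_mk] at hi
      rw [mem_RE_true] at hg
      rcases hi with ⟨rfl, rfl⟩ | ⟨rfl, rfl⟩ <;> simp only at hf
      · exact Or.inl ⟨by show y - 1 = -1; omega, by show 0 ≤ x; omega,
          by show x ≤ D.r; omega⟩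
      · omega
  · rintro ⟨x, y⟩ hg0 hs
    rw [sd_le] at hs
    unfold Dm.outer at hg0
    rw [Set.mem_ofPred_eq] at hg0
    simp only at hs hg0
    have h1 : y = -1 ∧ 0 ≤ x ∧ x ≤ D.r := by omega
    obtain ⟨rfl, h2, h3⟩ := h1
    refine ⟨(x, -1 - ((R + 1 : ℕ) : ℤ)), ?_, dnw (fun k => ?_) (by norm_num) (R + 1)⟩
    · rw [le_sd]
      simp only
      push_cast
      omega
    · rw [Set.mem_ofPred_eq]
      simp only
      omega
  · intro g hg v v' hi hv
    rw [sd_le] at hv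
    rw [Set.mem_ofPred_eq]
    unfold Yb Dm.edges Dm.wir at hg
    simp only [Set.mem_ofPred_eq] at hg
    unfold PI at hi
    obtain ⟨x, y, _ | _⟩ := g
    · simp only [src_mk, tgt_false] at hi
      simp only [mem_RE_false, Bool.false_eq_true, false_and, true_and, false_or, or_false,
        dsrc_false, dtgt_mk] at hg
      rcases hi with ⟨rfl, rfl⟩ | ⟨rfl, rfl⟩ <;> simp only at hv ⊢ <;> omega
    · simp only [src_mk, tgt_true] at hi
      simp only [mem_RE_true, Bool.true_eq_false, false_and, true_and, false_or,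
        dsrc_true, dtgt_mk] at hg
      rcases hi with ⟨rfl, rfl⟩ | ⟨rfl, rfl⟩ <;> simp only at hv ⊢ <;> omega
  · intro E hE x hx x' hx' hxz hxz'
    rw [sd_le] at hxz hxz'
    rw [Set.mem_ofPred_eq] at hx hx'
    simp only at hE hxz hxz'
    apply rect_conn (p1 := -R) (p2 := 0) (q1 := -R) (q2 := 0)
    · intro g hg
      apply hE
      · obtain ⟨a, b, _ | _⟩ := g
        · rw [mem_RE_false] at hg
          rw [dl_f, mem_RE_true]
          omega
        · rw [mem_RE_true] at hg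
          rw [dl_t, mem_RE_false]
          omega
      · unfold Yb Dm.edges Dm.wir
        simp only [Set.mem_ofPred_eq]
        obtain ⟨a, b, _ | _⟩ := g
        · rw [mem_RE_false] at hg
          left
          simp only [mem_RE_false, dsrc_false, dtgt_mk]
          omega
        · rw [mem_RE_true] at hg
          simp only [mem_RE_true, Bool.true_eq_false, false_and, true_and, false_or,
            dsrc_true, dtgt_mk]
          omega
    · unfold inR
      omega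
    · unfold inR
      omega

theorem main : S_EW := by
  intro D hD G B hG i hi d R ρ hd hdR hRρ hB hfar hh hbad
  have hD' := hD
  obtain ⟨k1, k2, k3, k4, k5⟩ := hD'
  have hc : i = 4 ∨ i = 5 := by omega
  rcases hc with rfl | rfl
  · have hp : pts D 4 = (D.t, D.h) := rfl
    have h2 := hfar 2 (by decide)
    have h3 := hfar 3 (by decide)
    have e2 : pts D 2 = (D.l, D.h) := rfl
    have e3 : pts D 3 = (D.r, D.h) := rfl
    rw [hp] at h2 h3 hB ⊢
    rw [e2, le_sd] at h2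
    rw [e3, le_sd] at h3
    simp only at h2 h3
    exact top hD hG hdR hRρ hB (by omega) (by omega) hh hbad
  · have hp : pts D 5 = (0, 0) := rfl
    have h2 := hfar 0 (by decide)
    have h3 := hfar 1 (by decide)
    have e2 : pts D 0 = (D.l, 0) := rfl
    have e3 : pts D 1 = (D.r, 0) := rfl
    rw [hp] at h2 h3 hB ⊢
    rw [e2, le_sd] at h2
    rw [e3, le_sd] at h3
    simp only at h2 h3
    exact bot hD hG hdR hRρ hB (by omega) (by omega) hh hbad

end Pool.Agent.N581.PN.EW
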